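import Pool.Agent.TH710.DY.IsoTow

/-!
# Dynamical Mordell-Lang for linear images of power maps over an algebraically closed subfield

Definitions:
* `FF.IsFF`, `canDeg`: function fields `K` of one variable over `k`, the canonical degree `2 g - 2`;
  `hgt k f`: the number of poles of `f`, with multiplicity;
* `Tower F`: `F` is a nested sum of few high powers of linear forms, `F = ∑ c_i g_i ^ e` with `s`
  summands, `e ≥ (s - 1) ^ 2`, the `g_i` all linear forms, or all sums of `r` terms `c h ^ e'` with
  `e' ≥ (2 r - 1) ^ 2`, the `h` all again of one such kind (linear forms are such sums);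
* `cstep σ d A`: the map `x ↦ A (x_0 ^ d, ..., x_n ^ d)` over `ℂ`.
-/

set_option autoImplicit false

open FF MvPolynomial Pool.Agent.W603.LV Pool.Agent.TH710.ND Pool.Agent.TH710.NU
  Pool.Agent.TH710.DY

namespace Pool.Agent.Results.MP_b15c9e_ag.ConstantLinearPowerMaps

/-- **Dynamical Mordell-Lang for linear images of power maps over an algebraically closed field, at
points of a function field.** Let `K ⊂ ℂ` (by `σ`) be a function field of one variable and of genus
`g` over an algebraically closed field `k`, `A ∈ GL_(n+1)(k)` a matrix without entries `0`,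
`d ≥ 4 (n + 1) ^ 3` and `Φ = A ∘ [d] : P^n → P^n`. Let `α ∈ P^n(K)` be a point with more than
`(n + 1) / 2` nonzero coordinates that are pairwise not proportional over `k`; if `g ≥ 2`, assume
that each nonconstant ratio of nonzero coordinates of `α` has height `> 2 g - 2`. Then the return
set of `α` is a finite union of arithmetic progressions, for every closed `V ⊆ P^n` given by
equations over `K` that are nested sums of few high powers of linear forms (in particular for all
linear subspaces `V` over `K`). -/
theorem result (n d : ℕ) (hd : 4 * (n + 1) ^ 3 ≤ d) (k K : Type) [Field k] [IsAlgClosed k]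
    [CharZero k] [Field K] [Algebra k K] [IsFF k K] (σ : K →+* ℂ)
    (A : Matrix (Fin (n + 1)) (Fin (n + 1)) k) (hA : A.det ≠ 0) (hA0 : ∀ i j, A i j ≠ 0)
    (α : Fin (n + 1) → K)
    (hα : canDeg k K ≤ 0 ∨ ∀ i j, α i ≠ 0 → α j ≠ 0 →
      (∃ c : k, α i = algebraMap k K c * α j) ∨ canDeg k K < hgt k (α i / α j))
    (T : Finset (Fin (n + 1))) (hT : n + 1 < 2 * T.card) (hT0 : ∀ i ∈ T, α i ≠ 0)
    (hT1 : ∀ i ∈ T, ∀ j ∈ T, i ≠ j → ∀ c : k, α i ≠ algebraMap k K c * α j)
    (V : Set (MvPolynomial (Fin (n + 1)) K)) (hV : ∀ F ∈ V, Tower F) :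
    ∃ P : Finset (ℕ × ℕ),
      {m : ℕ | ∀ F ∈ V, eval ((cstep σ d (A.map (algebraMap k K)))^[m] fun i => σ (α i))
        (map σ F) = 0} = {m : ℕ | ∃ t ∈ P, ∃ j : ℕ, m = t.1 + t.2 * j} := by
  classical
  have hgap : Gap k (max (canDeg k K) 0) α := by
    intro i j hi hj
    by_cases hc : ∃ c : k, α i = algebraMap k K c * α j
    · exact Or.inl hc
    · right
      have hpos : 0 < hgt k (α i / α j) := by
        by_contra hcon
        push Not at hcon
        obtain ⟨c, hc'⟩ := const_of_hgt hcon
        exact hc ⟨c, by rw [← hc', div_mul_cancel₀ _ hj]⟩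
      rcases hα with h | h
      · rwa [max_eq_right h]
      · exact max_lt ((h i j hi hj).resolve_left hc) hpos
  have hcard : n + 1 < 2 * (cls k α).card := by
    have h1 : T.card ≤ (cls k α).card := by
      refine Finset.card_le_card_of_injOn (fun i => Submodule.span k {α i}) (fun i hi => ?_) ?_
      · exact Finset.mem_image.2 ⟨i, Finset.mem_filter.2 ⟨Finset.mem_univ _, hT0 i hi⟩, rfl⟩
      · intro i hi j hj hij
        by_contra hne
        have h2 : α i ∈ Submodule.span k {α j} := by
          rw [← show Submodule.span k {α i} = Submodule.span k {α j} from hij]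
          exact Submodule.mem_span_singleton_self _
        obtain ⟨c, hc⟩ := Submodule.mem_span_singleton.1 h2
        exact hT1 i hi j hj hne c (by rw [← hc, Algebra.smul_def])
    omega
  obtain ⟨P, hP⟩ := return_periodic (k := k) hd hA hA0 hgap hcard V hV
  refine ⟨P, ?_⟩
  rw [← hP]
  ext m
  simp only [Set.mem_ofPred_eq]
  have h1 : ∀ F : MvPolynomial (Fin (n + 1)) K,
      eval ((cstep σ d (A.map (algebraMap k K)))^[m] fun i => σ (α i)) (map σ F) = 0 ↔
        aeval ((step d (mk A))^[m] α) F = 0 := by
    intro F
    rw [cstep_iter, eval_sigma, map_eq_zero σ]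
    rfl
  simp only [h1]

end Pool.Agent.Results.MP_b15c9e_ag.ConstantLinearPowerMaps
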