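import Pool.Agent.TH710.DY.Main

/-!
# Dynamical Mordell-Lang for linear images of power maps over function fields

Definitions:
* `FF.Place`, `FF.IsFF`, `canDeg`: places of a function field `K` of one variable over `k`, and its
  canonical degree `2 g - 2`; `hgt k f`: the number of poles of `f`, with multiplicity (the degree
  of `f` as a map to the projective line);
* `FarAt k W α l`: `α_l ≠ 0` and `hgt (α_l / α_j) > W` for all `j ≠ l` with `α_j ≠ 0`;
* `Far k W α`: all `α_i` are nonzero and `hgt (α_i / α_j) > W` for all `i ≠ j`;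
* `Minors A`: no minor of order two of `A` vanishes;
* `Tower F`: `F` is a nested sum of few high powers of linear forms, `F = ∑ c_i g_i ^ e` with `s`
  summands, `e ≥ (s - 1) ^ 2`, the `g_i` all linear forms, or all sums of `r` terms `c h ^ e'` with
  `e' ≥ (2 r - 1) ^ 2`, the `h` all again of one such kind (linear forms are such sums);
* `cstep σ d A`: the map `x ↦ A (x_0 ^ d, ..., x_n ^ d)` over `ℂ`.
-/

set_option autoImplicit false

open FF MvPolynomial Pool.Agent.W603.LV Pool.Agent.TH710.ND Pool.Agent.TH710.NU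
  Pool.Agent.TH710.DY

namespace Pool.Agent.Results.MP_b15c9e_ag.LinearPowerMaps

/-- **Dynamical Mordell-Lang for linear images of power maps of `P^n`, all `n`.**
Let `K ⊂ ℂ` (by `σ`) be a function field of one variable over an algebraically closed field `k`,
`A ∈ GL_(n+1)(K)`, `d ≥ 4 (n + 1) ^ 3`, `W = max (2 g - 2) 0 + ∑ hgt (a_ij)`, and let
`Φ = A ∘ [d] : P^n → P^n`. Let `α ∈ P^n(K)` have all ratios of two coordinates of height `> W`, or,
if no minor of order two of `A` vanishes, two coordinates whose ratios to all other nonzero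
coordinates have height `> W`. Then the return set of `α` is finite for every closed `V ⊂ P^n` that
is contained in a finite union of hypersurfaces over `K` given by nested sums of few high powers of
linear forms (in particular for every `V` contained in a hyperplane over `K`).
If `A` is over `k` and `2 g - 2 ≤ 0`, the condition on `α` is that the ratios are not in `k`. -/
theorem result (n d : ℕ) (hd : 4 * (n + 1) ^ 3 ≤ d) (k K : Type) [Field k] [IsAlgClosed k]
    [CharZero k] [Field K] [Algebra k K] [IsFF k K] (σ : K →+* ℂ)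
    (A : Matrix (Fin (n + 1)) (Fin (n + 1)) K) (hA : A.det ≠ 0) :
    (∀ x : Fin (n + 1) → ℂ, cstep σ d A x = 0 → x = 0) ∧
    ∀ (V : Set (MvPolynomial (Fin (n + 1)) ℂ)),
      (∃ (r : ℕ) (F : Fin r → MvPolynomial (Fin (n + 1)) K), (∀ i, Tower (F i) ∧ F i ≠ 0) ∧
        ∀ z : Fin (n + 1) → ℂ, (∀ G ∈ V, eval z G = 0) → ∃ i, eval z (map σ (F i)) = 0) →
      (∀ α : Fin (n + 1) → K,
        (Far k (max (canDeg k K) 0 + ∑ i, ∑ j, hgt k (A i j)) α ∨ (Minors A ∧ ∃ l m, l ≠ m ∧
          FarAt k (max (canDeg k K) 0 + ∑ i, ∑ j, hgt k (A i j)) α l ∧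
          FarAt k (max (canDeg k K) 0 + ∑ i, ∑ j, hgt k (A i j)) α m)) →
        {m : ℕ | ∀ G ∈ V, eval ((cstep σ d A)^[m] fun i => σ (α i)) G = 0}.Finite) ∧
      (canDeg k K ≤ 0 → (∀ i j, ∃ c : k, A i j = algebraMap k K c) →
        ∀ α : Fin (n + 1) → K,
        (((∀ i, α i ≠ 0) ∧ ∀ i j, i ≠ j → ∀ c : k, α i ≠ algebraMap k K c * α j) ∨
          (Minors A ∧ ∃ l m, l ≠ m ∧ α l ≠ 0 ∧ α m ≠ 0 ∧
            ∀ c : k, (∀ j, j ≠ l → α l ≠ algebraMap k K c * α j) ∧
              ∀ j, j ≠ m → α m ≠ algebraMap k K c * α j)) →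
        {m : ℕ | ∀ G ∈ V, eval ((cstep σ d A)^[m] fun i => σ (α i)) G = 0}.Finite) := by
  obtain ⟨hd0, -, -⟩ := four_cube (Nat.succ_pos n) hd
  refine ⟨fun x hx => cstep_zero hd0 σ hA x hx, ?_⟩
  rintro V ⟨r, F, hF, hV⟩
  have key : ∀ α : Fin (n + 1) → K,
      Start k A (max (canDeg k K) 0 + ∑ i, ∑ j, hgt k (A i j)) α →
      {m : ℕ | ∀ G ∈ V, eval ((cstep σ d A)^[m] fun i => σ (α i)) G = 0}.Finite := by
    intro α hα
    refine (Set.finite_iUnion fun i => return_finite (k := k) hd hA le_rfl hα (hF i).1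
      (hF i).2).subset ?_
    intro m hm
    obtain ⟨i, hi⟩ := hV _ hm
    rw [Set.mem_iUnion]
    refine ⟨i, ?_⟩
    rw [cstep_iter, eval_sigma] at hi
    exact (map_eq_zero σ).1 hi
  refine ⟨key, fun hg hAk α hα => key α ?_⟩
  have hW : max (canDeg k K) 0 + ∑ i, ∑ j, hgt k (A i j) = 0 := by
    rw [max_eq_right hg, zero_add]
    refine Finset.sum_eq_zero fun i _ => Finset.sum_eq_zero fun j _ => ?_
    obtain ⟨c, hc⟩ := hAk i j
    rw [hc, hgt_alg]
  rw [hW]
  have hpos : ∀ a b : K, b ≠ 0 → (∀ c : k, a ≠ algebraMap k K c * b) → 0 < hgt k (a / b) := by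
    intro a b hb h
    by_contra hcon
    push Not at hcon
    obtain ⟨c, hc⟩ := const_of_hgt hcon
    exact h c (by rw [← hc, div_mul_cancel₀ _ hb])
  rcases hα with ⟨h1, h2⟩ | ⟨h1, l, m, hlm, hl, hm, h⟩
  · exact Or.inl ⟨h1, fun i j hij => hpos _ _ (h1 j) (h2 i j hij)⟩
  · exact Or.inr ⟨h1, l, m, hlm, ⟨hl, fun j hj hj0 => hpos _ _ hj0 fun c => (h c).1 j hj⟩,
      ⟨hm, fun j hj hj0 => hpos _ _ hj0 fun c => (h c).2 j hj⟩⟩

end Pool.Agent.Results.MP_b15c9e_ag.LinearPowerMaps
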