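import Pool.Agent.TH166.DMR.Proj

/-!
# Dynamical Mordell-Lang for endomorphisms of `P^N` with a power map at infinity at real points

Definitions (in `Pool.Agent.TH166.DMR`):
* `sys d a Q`: the system `(a_0 X_0^d, a_1 X_1^d + X_0 Q_1, ..., a_N X_N^d + X_0 Q_N)`, where the
  `Q_i` are forms of degree `d - 1` in `X_0, ..., X_N`; for nonzero `a_j` these are the
  endomorphisms of `P^N` of degree `d` for which the hyperplane `X_0 = 0` is totally invariant and
  which are given by `[a_1 X_1^d : ... : a_N X_N^d]` on this hyperplane;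
* `DMLAt F α`: for every set `V` of complex polynomials the set of the `n` such that the `n`-th
  iterate of `α` under `F` is a common zero of `V` is a finite union of arithmetic progressions
  `{a + b k : k ≥ 0}` with `b = 0` or `b = 2`.
-/

set_option autoImplicit false

open MvPolynomial Pool.Agent.TH166.DMR

namespace Pool.Agent.Results.MP_b15c9e_ag.RealDominatedPoints

/-- **Dynamical Mordell-Lang for perturbed power maps of `P^N` at dominated real points, and at
almost all integral points.**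
Let `N ≥ 1`, `d ≥ 2`, and let `L` be a field with embeddings `σ : L → ℂ`, `τ : L → ℝ` (for instance
`L = ℝ`, or a number field with a real place), `a_0, ..., a_N ∈ L` nonzero and `Q_1, ..., Q_N`
arbitrary forms of degree `d - 1` in `X_0, ..., X_N` over `L`. Then the system
`F = (a_0 X_0^d, a_1 X_1^d + X_0 Q_1, ..., a_N X_N^d + X_0 Q_N)` has no common zero but `0` in
`ℂ^(N+1)`; there is `ρ > 0` such that `DMLAt F α` holds for all `α` in `L^(N+1)` with `α_0 ≠ 0` and
`|α_0| |α_j|^(d-1) ≤ ρ |α_i|^d` (in `ℝ`) for all `i ≥ 1` and all `j`; and there is `C` such that for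
all `H ≥ 1` at most `C H^(N - 1/d)` of the `(2 H + 1)^N` integral points `x` of affine space with
`|x_i| ≤ H` fail `DMLAt F (1, x)`. -/
theorem result :
    ∀ N d : ℕ, 1 ≤ N → 2 ≤ d → ∀ (L : Type) [Field L] (σ : L →+* ℂ) (τ : L →+* ℝ)
      (a : Fin (N + 1) → L), (∀ j, a j ≠ 0) →
      ∀ Q : Fin N → MvPolynomial (Fin (N + 1)) L, (∀ i, (Q i).IsHomogeneous (d - 1)) →
        (∀ x : Fin (N + 1) → ℂ, (∀ j, eval x (map σ (sys d a Q j)) = 0) → x = 0) ∧
        (∃ ρ : ℝ, 0 < ρ ∧ ∀ α : Fin (N + 1) → L, α 0 ≠ 0 →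
          (∀ (i : Fin N) (j : Fin (N + 1)),
            |τ (α 0)| * |τ (α j)| ^ (d - 1) ≤ ρ * |τ (α i.succ)| ^ d) →
          DMLAt (fun j => map σ (sys d a Q j)) (fun j => σ (α j))) ∧
        ∃ C : ℝ, ∀ H : ℕ, 1 ≤ H → (({x : Fin N → ℤ | (∀ i, |x i| ≤ (H : ℤ)) ∧
          ¬ DMLAt (fun j => map σ (sys d a Q j))
            (Fin.cons 1 (fun i => (x i : ℂ)))} : Set (Fin N → ℤ)).ncard : ℝ) ≤
          C * (H : ℝ) ^ ((N : ℝ) - 1 / d) := by
  intro N d _ hd L _ σ τ a ha Q hQ
  refine ⟨fun x hx => ?_, dmlAt_sys hd σ τ a ha Q hQ, count_dml hd σ τ a ha Q hQ⟩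
  have hd0 : d ≠ 0 := by omega
  have h0 : x 0 = 0 := by
    have h1 := hx 0
    simp only [sys, Fin.cons_zero, map_mul, map_pow, map_C, map_X, eval_C, eval_X] at h1
    rcases mul_eq_zero.mp h1 with h2 | h2
    · exact absurd h2 ((map_ne_zero σ).mpr (ha 0))
    · exact pow_eq_zero_iff hd0 |>.mp h2
  funext j
  refine Fin.cases ?_ (fun i => ?_) j
  · exact h0
  · have h1 := hx i.succ
    simp only [sys, Fin.cons_succ, map_add, map_mul, map_pow, map_C, map_X, eval_C, eval_X, h0,
      zero_mul, add_zero] at h1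
    rcases mul_eq_zero.mp h1 with h2 | h2
    · exact absurd h2 ((map_ne_zero σ).mpr (ha i.succ))
    · exact pow_eq_zero_iff hd0 |>.mp h2

end Pool.Agent.Results.MP_b15c9e_ag.RealDominatedPoints
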