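import Pool.Agent.TH838.DS.Hom
import Pool.Agent.TH838.DS.QSieve
import Pool.Agent.TH838.DS.Sym

/-!
# Dynamical Mordell-Lang for the symmetric powers of almost all quadratic rational functions
-/

set_option autoImplicit false

namespace Pool.Agent.Results.MP_b15c9e_ag.SymmetricPowers

open MvPolynomial

/-- The rational function `f_v` of degree `2` with coefficients `v`, in homogeneous coordinates:
`(y₀ : y₁) ↦ (∑ v_{0,e} y₀^e y₁^(2-e) : ∑ v_{1,e} y₀^e y₁^(2-e))`. -/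
noncomputable def ratMap (v : Fin 2 × Fin 3 → ℤ) (y : Fin 2 → ℂ) : Fin 2 → ℂ :=
  fun j => ∑ e : Fin 3, (v (j, e) : ℂ) * (y 0 ^ (e : ℕ) * y 1 ^ (2 - (e : ℕ)))

/-- The coordinates in `ℙ^N = Sym^N ℙ^1` of the `N`-tuple of points `(x_{i,0} : x_{i,1})` of `ℙ^1`:
the coefficients of `∏ (x_{i,0} + x_{i,1} T)`. -/
noncomputable def symPoint {N : ℕ} (x : Fin N → Fin 2 → ℂ) : Fin (N + 1) → ℂ :=
  fun j => (∏ i, (Polynomial.C (x i 0) + Polynomial.C (x i 1) * Polynomial.X)).coeff (j : ℕ)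

/-- `F` is an endomorphism of `ℙ^N` given by forms of degree `d`. -/
def IsEndo {N : ℕ} (d : ℕ) (F : Fin (N + 1) → MvPolynomial (Fin (N + 1)) ℂ) : Prop :=
  (∀ i, (F i).IsHomogeneous d) ∧ ∀ x : Fin (N + 1) → ℂ, (∀ i, eval x (F i) = 0) → x = 0

/-- `F` is the `N`-th symmetric power of `f_v`:
`{P_1, ..., P_N} ↦ {f_v(P_1), ..., f_v(P_N)}`. -/
def IsSymPower {N : ℕ} (v : Fin 2 × Fin 3 → ℤ)
    (F : Fin (N + 1) → MvPolynomial (Fin (N + 1)) ℂ) : Prop :=
  ∀ x : Fin N → Fin 2 → ℂ,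
    (fun j => eval (symPoint x) (F j)) = symPoint fun i => ratMap v (x i)

/-- The Dynamical Mordell-Lang property of the endomorphism `F` of `ℙ^N`: for every point and every
closed subvariety (the common zeros of a set `S` of forms) the return set is a finite union of
arithmetic progressions. -/
def DML {N : ℕ} (F : Fin (N + 1) → MvPolynomial (Fin (N + 1)) ℂ) : Prop :=
  ∀ S : Set (MvPolynomial (Fin (N + 1)) ℂ), (∀ g ∈ S, ∃ e : ℕ, g.IsHomogeneous e) →
    ∀ a : Fin (N + 1) → ℂ, a ≠ 0 → ∃ T : Finset (ℕ × ℕ),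
      {n : ℕ | ∀ g ∈ S,
        eval ((fun x : Fin (N + 1) → ℂ => fun i => eval x (F i))^[n] a) g = 0} =
        {n : ℕ | ∃ q ∈ T, ∃ m : ℕ, n = q.1 * m + q.2}

open Pool.Agent.TH838.DS

/-- the resultant of a pair of binary quadratic forms -/
def rs {R : Type} [CommRing R] (c : Fin 2 × Fin (2 + 1) → R) : R :=
  (c (0, 2) * c (1, 0) - c (1, 2) * c (0, 0)) ^ 2 -
    (c (0, 2) * c (1, 1) - c (1, 2) * c (0, 1)) * (c (0, 1) * c (1, 0) - c (1, 1) * c (0, 0))

theorem rs_co {R : Type} [CommRing R] (A : Fin 2 → Fin 2 → R) (x : Fin 2 → R) :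
    rs (co A x) = (A 0 0 * A 1 1 - A 0 1 * A 1 0) ^ 2 * (x 0 - x 1) ^ 4 := by
  have v2 : (((2 : Fin (2 + 1)) : ℕ)) = 2 := rfl
  have v1 : (((1 : Fin (2 + 1)) : ℕ)) = 1 := rfl
  have v0 : (((0 : Fin (2 + 1)) : ℕ)) = 0 := rfl
  simp only [rs, co, v2, v1, v0, if_true, if_false, one_ne_zero, OfNat.ofNat_ne_zero,
      OfNat.ofNat_ne_one]
  ring

theorem no_zero {c : Fin 2 × Fin (2 + 1) → ℂ} (hc : rs c ≠ 0) {z : Fin 2 → ℂ}
    (h : Sy.qm c z = 0) : z = 0 := by
  have h0 := congrFun h 0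
  have h1 := congrFun h 1
  simp only [Sy.qm, Pi.zero_apply] at h0 h1
  rw [Fin.sum_univ_three] at h0 h1
  simp only [Fin.val_zero, Fin.val_one, Fin.val_two, pow_zero, pow_one, one_mul, mul_one,
    Nat.sub_zero, Nat.sub_self, Nat.add_one_sub_one] at h0 h1
  by_contra hz
  apply hc
  unfold rs
  have hz' : z 0 ≠ 0 ∨ z 1 ≠ 0 := by
    by_contra hcon
    push Not at hcon
    apply hz
    funext j
    fin_cases j
    · exact hcon.1
    · exact hcon.2
  have key1 : (z 0) * ((c (0, 2) * c (1, 0) - c (1, 2) * c (0, 0)) * z 0 +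
      (c (0, 1) * c (1, 0) - c (1, 1) * c (0, 0)) * z 1) = 0 := by
    linear_combination c (1, 0) * h0 - c (0, 0) * h1
  have key2 : (z 1) * ((c (0, 2) * c (1, 1) - c (1, 2) * c (0, 1)) * z 0 +
      (c (0, 2) * c (1, 0) - c (1, 2) * c (0, 0)) * z 1) = 0 := by
    linear_combination c (0, 2) * h1 - c (1, 2) * h0
  by_cases hz0 : z 0 = 0
  · have hz1 : z 1 ≠ 0 := hz'.resolve_left fun h => h hz0
    rw [hz0] at h0 h1
    have e0 : c (0, 0) = 0 := by
      apply (mul_eq_zero.1 (?_ : c (0, 0) * z 1 ^ 2 = 0)).resolve_right (pow_ne_zero 2 hz1)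
      linear_combination h0
    have e1 : c (1, 0) = 0 := by
      apply (mul_eq_zero.1 (?_ : c (1, 0) * z 1 ^ 2 = 0)).resolve_right (pow_ne_zero 2 hz1)
      linear_combination h1
    rw [e0, e1]
    ring
  · by_cases hz1 : z 1 = 0
    · rw [hz1] at h0 h1
      have e0 : c (0, 2) = 0 := by
        apply (mul_eq_zero.1 (?_ : c (0, 2) * z 0 ^ 2 = 0)).resolve_right (pow_ne_zero 2 hz0)
        linear_combination h0
      have e1 : c (1, 2) = 0 := by
        apply (mul_eq_zero.1 (?_ : c (1, 2) * z 0 ^ 2 = 0)).resolve_right (pow_ne_zero 2 hz0)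
        linear_combination h1
      rw [e0, e1]
      ring
    · have k1 := (mul_eq_zero.1 key1).resolve_left hz0
      have k2 := (mul_eq_zero.1 key2).resolve_left hz1
      apply (mul_eq_zero.1 (?_ : _ * z 1 = 0)).resolve_right hz1
      linear_combination (c (0, 2) * c (1, 0) - c (1, 2) * c (0, 0)) * k2 -
        (c (0, 2) * c (1, 1) - c (1, 2) * c (0, 1)) * k1

theorem symPoint_eq {N : ℕ} (x : Fin N → Fin 2 → ℂ) : symPoint x = Sy.form x := rfl

theorem eval_bind {ι κ : Type} (P : ι → MvPolynomial κ ℂ) (g : MvPolynomial ι ℂ) (x : κ → ℂ) :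
    eval x (aeval P g) = eval (fun q => eval x (P q)) g := by
  induction g using MvPolynomial.induction_on with
  | C a => simp
  | add p q hp hq => rw [map_add, map_add, hp, hq, map_add]
  | mul_X p i hp => rw [map_mul, map_mul, hp, map_mul, aeval_X, eval_X]

theorem map_fp {R S : Type} [CommRing R] [CommRing S] (φ : R →+* S) {N : ℕ}
    (x : Fin N → Fin 2 → R) : (Sy.fp x).map φ = Sy.fp fun i k => φ (x i k) := by
  simp [Sy.fp, Polynomial.map_prod]

theorem fp_scale {N : ℕ} (t : Fin N → ℂ) (x : Fin N → Fin 2 → ℂ) :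
    Sy.fp (fun i k => t i * x i k) = Polynomial.C (∏ i, t i) * Sy.fp x := by
  unfold Sy.fp
  rw [map_prod, ← Finset.prod_mul_distrib]
  refine Finset.prod_congr rfl fun i _ => ?_
  rw [map_mul, map_mul]
  ring

theorem eval_form {N : ℕ} (z : Fin N × Fin 2 → ℂ) (j : Fin (N + 1)) :
    eval z (Sy.form (fun (i : Fin N) (k : Fin 2) =>
      (X (i, k) : MvPolynomial (Fin N × Fin 2) ℂ)) j) = Sy.form (fun i k => z (i, k)) j := by
  have h1 := map_fp (eval z) (fun (i : Fin N) (k : Fin 2) =>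
    (X (i, k) : MvPolynomial (Fin N × Fin 2) ℂ))
  have h2 := congrArg (fun g => Polynomial.coeff g (j : ℕ)) h1
  simp only [Polynomial.coeff_map, eval_X] at h2
  exact h2

theorem form_scale {N : ℕ} (t : Fin N → ℂ) (x : Fin N → Fin 2 → ℂ) :
    Sy.form (fun i k => t i * x i k) = fun j => (∏ i, t i) * Sy.form x j := by
  funext j
  have h2 := congrArg (fun g => Polynomial.coeff g (j : ℕ)) (fp_scale t x)
  simp only [Polynomial.coeff_C_mul] at h2
  exact h2

/-- The equations pulled back to `(ℙ^1)^N`. -/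
noncomputable def pull {N : ℕ} (g : MvPolynomial (Fin (N + 1)) ℂ) :
    MvPolynomial (Fin N × Fin 2) ℂ :=
  aeval (Sy.form fun (i : Fin N) (k : Fin 2) =>
    (X (i, k) : MvPolynomial (Fin N × Fin 2) ℂ)) g

theorem eval_pull {N : ℕ} (g : MvPolynomial (Fin (N + 1)) ℂ) (z : Fin N × Fin 2 → ℂ) :
    eval z (pull g) = eval (Sy.form fun i k => z (i, k)) g := by
  unfold pull
  rw [eval_bind]
  congr 2
  funext j
  exact eval_form z j

theorem multiHom_pull {N : ℕ} (g : MvPolynomial (Fin (N + 1)) ℂ) (e : ℕ)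
    (he : g.IsHomogeneous e) : Hm.MultiHom (pull g) := by
  refine ⟨fun _ => e, fun t z => ?_⟩
  rw [eval_pull, eval_pull, Finset.prod_pow]
  have h1 := form_scale t fun i k => z (i, k)
  rw [h1]
  exact Pool.Agent.H936R2.eval_scale g e he _ _

/-- the constant tuple -/
def cst {N : ℕ} (v : Fin 2 × Fin (2 + 1) → ℤ) : Hm.Idx N (fun _ => 2) → ℤ := fun q => v q.2

theorem smap_cst {N : ℕ} (v : Fin 2 × Fin (2 + 1) → ℤ) (z : Fin N × Fin 2 → ℂ) (i : Fin N) :
    (fun k => Hm.smap id (cst v) z (i, k)) = ratMap v fun k => z (i, k) := by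
  funext k
  unfold Hm.smap ratMap cst
  rfl

theorem iter_form {N : ℕ} (v : Fin 2 × Fin (2 + 1) → ℤ)
    (F : Fin (N + 1) → MvPolynomial (Fin (N + 1)) ℂ) (hF : IsSymPower v F)
    (α : Fin N × Fin 2 → ℂ) (n : ℕ) :
    (fun x : Fin (N + 1) → ℂ => fun i => eval x (F i))^[n] (Sy.form fun i k => α (i, k)) =
      Sy.form fun i k => (Hm.smap id (cst v))^[n] α (i, k) := by
  induction n with
  | zero => rfl
  | succ n ih =>
    rw [Function.iterate_succ_apply', ih, Function.iterate_succ_apply']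
    have h1 := hF fun i k => (Hm.smap id (cst v))^[n] α (i, k)
    rw [symPoint_eq, symPoint_eq] at h1
    rw [h1]
    congr 1

theorem dml_of_all {N : ℕ} (hN : 1 ≤ N) (v : Fin 2 × Fin (2 + 1) → ℤ)
    (F : Fin (N + 1) → MvPolynomial (Fin (N + 1)) ℂ) (hF : IsSymPower v F)
    (hall : Hm.DMLOver ⊤ id (cst (N := N) v)) : DML F := by
  intro S hS a ha
  obtain ⟨y, hy, rfl⟩ := Sy.exists_form N hN a ha
  obtain ⟨T, hT⟩ := hall (fun q => y q.1 q.2) (fun _ => Subfield.mem_top _) (fun i h => hy i (by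
      funext k
      fin_cases k
      · exact h.1
      · exact h.2)) (pull '' S) (by
      rintro _ ⟨g, hg, rfl⟩
      obtain ⟨e, he⟩ := hS g hg
      exact multiHom_pull g e he)
  refine ⟨T, ?_⟩
  rw [← hT]
  ext n
  simp only [Set.mem_ofPred_eq, Set.forall_mem_image]
  apply forall₂_congr
  intro g _
  have h1 := iter_form v F hF (fun q => y q.1 q.2) n
  simp only at h1
  rw [h1, eval_pull]

theorem main (v : Fin 2 × Fin (2 + 1) → ℤ)
    (hv : ∃ (p : ℕ) (_ : Fact p.Prime), p ≠ 2 ∧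
      GoodT fun (_ : Unit) (q : Fin 2 × Fin (2 + 1)) => ((v q : ℤ) : ZMod p))
    (N : ℕ) (hN : 1 ≤ N) :
    ∃ F : Fin (N + 1) → MvPolynomial (Fin (N + 1)) ℂ, IsEndo 2 F ∧ IsSymPower v F ∧ DML F := by
  classical
  obtain ⟨p, hp, hp2, A, x, hc, hA, hx, hU⟩ := hv
  -- no common zero
  have hrs : rs (fun q => (v q : ℂ)) ≠ 0 := by
    have h1 : rs (fun q => ((v q : ℤ) : ZMod p)) ≠ 0 := by
      have h2 : (fun q => ((v q : ℤ) : ZMod p)) = co (A ()) (x ()) := hc ()
      rw [h2, rs_co]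
      exact mul_ne_zero (pow_ne_zero _ (hA ())) (pow_ne_zero _ (sub_ne_zero.2 (hx ())))
    have h3 : ((rs v : ℤ) : ZMod p) = rs fun q => ((v q : ℤ) : ZMod p) := by
      simp [rs]
    have h4 : ((rs v : ℤ) : ℂ) = rs fun q => (v q : ℂ) := by
      simp [rs]
    rw [← h4]
    intro h5
    apply h1
    rw [← h3]
    have h6 : rs v = 0 := by exact_mod_cast h5
    rw [h6, Int.cast_zero]
  have hnz : ∀ z : Fin 2 → ℂ, z ≠ 0 → ratMap v z ≠ 0 := fun z hz h => hz (no_zero hrs h)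
  have hF : ∀ x : Fin N → Fin 2 → ℂ, (fun j => eval (symPoint x) (Sy.sF (N := N)
      (fun q => (v q : ℂ)) j)) = symPoint fun i => ratMap v (x i) := fun x =>
    Sy.sF_form (N := N) (fun q => (v q : ℂ)) x
  have hne : ∀ x : Fin N → Fin 2 → ℂ, (∀ i, x i ≠ 0) → symPoint x ≠ 0 := by
    intro x hx h
    have h1 : Sy.fp x = 0 := by
      ext j
      rw [Polynomial.coeff_zero]
      by_cases hj : j < N + 1
      · exact congrFun h ⟨j, hj⟩
      · apply Polynomial.coeff_eq_zero_of_natDegree_lt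
        have := Sy.natDegree_fp x
        omega
    unfold Sy.fp at h1
    rw [Finset.prod_eq_zero_iff] at h1
    obtain ⟨i, -, hi⟩ := h1
    apply hx i
    have h2 := congrArg (fun g => Polynomial.coeff g 0) hi
    have h3 := congrArg (fun g => Polynomial.coeff g 1) hi
    simp at h2 h3
    funext k
    fin_cases k
    · exact h2
    · simpa [Polynomial.coeff_C] using h3
  refine ⟨Sy.sF fun q => (v q : ℂ), ⟨fun i => Sy.sF_homog _ i, ?_⟩, hF, ?_⟩
  · intro a ha
    by_contra hane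
    obtain ⟨y, hy, rfl⟩ := Sy.exists_form N hN a hane
    apply hne (fun i => ratMap v (y i)) (fun i => hnz _ (hy i))
    rw [← hF y]
    funext j
    exact ha j
  · apply dml_of_all hN v _ hF
    exact Hm.good_all hp2 (cst v) ⟨fun _ => A (), fun _ => x (), fun _ => hc (), fun _ => hA (),
      fun _ => hx (), fun _ _ m => hU () () m⟩ id

/-- **Dynamical Mordell-Lang for the symmetric powers of almost all quadratic rational functions.**
There is `δ > 0` such that for all large `H` and every cube `|v_q - b_q| ≤ H`, for all but a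
proportion `H ^ (-δ)` of the integral vectors `v` in the cube, all the symmetric powers
`Sym^N f_v : ℙ^N → ℙ^N` (`N ≥ 1`) of the quadratic rational function `f_v` with coefficients `v` are
endomorphisms of `ℙ^N` with the full Dynamical Mordell-Lang property (all complex points, all closed
subvarieties over `ℂ`). -/
theorem result :
    ∃ δ : ℝ, 0 < δ ∧ ∃ H₀ : ℕ, ∀ H : ℕ, H₀ ≤ H → ∀ b : Fin 2 × Fin 3 → ℤ,
      (Nat.card {v : Fin 2 × Fin 3 → ℤ // (∀ q, |v q - b q| ≤ (H : ℤ)) ∧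
        ¬ ∀ N : ℕ, 1 ≤ N → ∃ F : Fin (N + 1) → MvPolynomial (Fin (N + 1)) ℂ,
          IsEndo 2 F ∧ IsSymPower v F ∧ DML F} : ℝ) ≤
        (H : ℝ) ^ (-δ) * (2 * H + 1 : ℝ) ^ 6 := by
  classical
  obtain ⟨δ, hδ, H₀, hH⟩ := sieve_good (ι := Unit) (J := Fin 2 × Fin (2 + 1))
    (Equiv.punitProd _).symm
  refine ⟨δ, hδ, H₀, fun H hH₀ b => ?_⟩
  have h1 := hH H hH₀ b
  have h2 : Fintype.card (Fin 2 × Fin (2 + 1)) = 6 := by simp
  rw [h2] at h1
  refine le_trans ?_ h1
  have hfin : Finite {v : Fin 2 × Fin (2 + 1) → ℤ // (∀ i, |v i - b i| ≤ (H : ℤ)) ∧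
      ¬ ∃ (p : ℕ) (_ : Fact p.Prime), p ≠ 2 ∧
        GoodT fun (i : Unit) (q : Fin 2 × Fin (2 + 1)) =>
          ((v ((Equiv.punitProd _).symm.symm (i, q)) : ℤ) : ZMod p)} := by
    apply Set.Finite.subset (Set.Finite.pi' fun i => Set.finite_Icc (b i - (H : ℤ)) (b i + H))
    rintro v ⟨hv, -⟩ i
    have := abs_le.1 (hv i)
    exact ⟨by linarith [this.1], by linarith [this.2]⟩
  have hle := Nat.card_le_card_of_injective
    (fun v : {v : Fin 2 × Fin 3 → ℤ // (∀ q, |v q - b q| ≤ (H : ℤ)) ∧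
        ¬ ∀ N : ℕ, 1 ≤ N → ∃ F : Fin (N + 1) → MvPolynomial (Fin (N + 1)) ℂ,
          IsEndo 2 F ∧ IsSymPower v F ∧ DML F} =>
      (⟨v.1, v.2.1, fun h => v.2.2 fun N hN => main v.1 h N hN⟩ :
        {v : Fin 2 × Fin (2 + 1) → ℤ // (∀ i, |v i - b i| ≤ (H : ℤ)) ∧
      ¬ ∃ (p : ℕ) (_ : Fact p.Prime), p ≠ 2 ∧
        GoodT fun (i : Unit) (q : Fin 2 × Fin (2 + 1)) =>
          ((v ((Equiv.punitProd _).symm.symm (i, q)) : ℤ) : ZMod p)}))
    (fun v w hvw => Subtype.ext (congrArg (fun z => z.1) hvw))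
  exact_mod_cast hle

end Pool.Agent.Results.MP_b15c9e_ag.SymmetricPowers
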